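import Pool.Agent.H13.HX.TargetsK
import Mathlib.RingTheory.Nullstellensatz
import Mathlib.Algebra.MvPolynomial.Nilpotent

/-!
# Module IRS: irreducibility is preserved by specialization
-/

set_option autoImplicit false

open MvPolynomial
open Pool.Agent.H12.ZD (pmap v O Res)
open Pool.Agent.H18.HIT Pool.Agent.H18.HX Pool.Agent.H13.HX

namespace Pool.Agent.H4.HX

/-- exponents of degree at most `n` -/
noncomputable def Ms (L n : ℕ) : Finset (Fin L →₀ ℕ) :=
  (Finsupp.finite_of_degree_le (σ := Fin L) n).toFinset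

theorem mem_Ms {L n : ℕ} {m : Fin L →₀ ℕ} : m ∈ Ms L n ↔ m.degree ≤ n := by
  unfold Ms
  rw [Set.Finite.mem_toFinset]
  rfl

/-- the names of the unknown coefficients -/
abbrev Sg (L r1 r2 : ℕ) : Type := {m // m ∈ Ms L r1} ⊕ {m // m ∈ Ms L r2}

section

variable (L r1 r2 : ℕ) (R : Type) [CommRing R]

/-- the first unknown factor -/
noncomputable def g1 : MvPolynomial (Fin L) (MvPolynomial (Sg L r1 r2) R) :=
  ∑ m : {m // m ∈ Ms L r1}, monomial m.1 (X (Sum.inl m))

/-- the second unknown factor -/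
noncomputable def g2 : MvPolynomial (Fin L) (MvPolynomial (Sg L r1 r2) R) :=
  ∑ m : {m // m ∈ Ms L r2}, monomial m.1 (X (Sum.inr m))

/-- the difference -/
noncomputable def df (P : MvPolynomial (Fin L) R) :
    MvPolynomial (Fin L) (MvPolynomial (Sg L r1 r2) R) :=
  g1 L r1 r2 R * g2 L r1 r2 R - map C P

end

theorem map_g1 {L r1 r2 : ℕ} {R R' : Type} [CommRing R] [CommRing R'] (φ : R →+* R') :
    map (map φ) (g1 L r1 r2 R) = g1 L r1 r2 R' := by
  unfold g1
  rw [map_sum]
  refine Finset.sum_congr rfl fun m _ => ?_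
  rw [map_monomial, map_X]

theorem map_g2 {L r1 r2 : ℕ} {R R' : Type} [CommRing R] [CommRing R'] (φ : R →+* R') :
    map (map φ) (g2 L r1 r2 R) = g2 L r1 r2 R' := by
  unfold g2
  rw [map_sum]
  refine Finset.sum_congr rfl fun m _ => ?_
  rw [map_monomial, map_X]

theorem map_df {L r1 r2 : ℕ} {R R' : Type} [CommRing R] [CommRing R'] (φ : R →+* R')
    (P : MvPolynomial (Fin L) R) : map (map φ) (df L r1 r2 R P) = df L r1 r2 R' (map φ P) := by
  unfold df
  rw [map_sub, map_mul, map_g1, map_g2, map_map, map_map]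
  congr 2
  refine RingHom.ext fun a => ?_
  simp

theorem ev_g1 {L r1 r2 : ℕ} {R : Type} [CommRing R] (x : Sg L r1 r2 → R) :
    map (eval x) (g1 L r1 r2 R) = ∑ m : {m // m ∈ Ms L r1}, monomial m.1 (x (Sum.inl m)) := by
  unfold g1
  rw [map_sum]
  refine Finset.sum_congr rfl fun m _ => ?_
  rw [map_monomial, eval_X]

theorem ev_g2 {L r1 r2 : ℕ} {R : Type} [CommRing R] (x : Sg L r1 r2 → R) :
    map (eval x) (g2 L r1 r2 R) = ∑ m : {m // m ∈ Ms L r2}, monomial m.1 (x (Sum.inr m)) := by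
  unfold g2
  rw [map_sum]
  refine Finset.sum_congr rfl fun m _ => ?_
  rw [map_monomial, eval_X]

theorem ev_df {L r1 r2 : ℕ} {R : Type} [CommRing R] (x : Sg L r1 r2 → R)
    (P : MvPolynomial (Fin L) R) : map (eval x) (df L r1 r2 R P) =
      map (eval x) (g1 L r1 r2 R) * map (eval x) (g2 L r1 r2 R) - P := by
  unfold df
  rw [map_sub, map_mul, map_map]
  congr 1
  have : (eval x).comp (C : R →+* MvPolynomial (Sg L r1 r2) R) = RingHom.id R :=
    RingHom.ext fun a => by simp
  rw [this, map_id]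

theorem sum_eq {L n : ℕ} {R : Type} [CommRing R] (a : MvPolynomial (Fin L) R)
    (ha : a.totalDegree ≤ n) : ∑ m : {m // m ∈ Ms L n}, monomial m.1 (coeff m.1 a) = a := by
  classical
  rw [Finset.sum_coe_sort (Ms L n) (fun m => monomial m (coeff m a))]
  conv_rhs => rw [a.as_sum]
  symm
  refine Finset.sum_subset (fun m hm => mem_Ms.2 ?_) fun m _ hm => ?_
  · exact (le_totalDegree hm).trans ha
  · rw [notMem_support_iff.1 hm, monomial_zero]

theorem td_le {L n : ℕ} {R : Type} [CommRing R] (c : {m // m ∈ Ms L n} → R) :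
    (∑ m : {m // m ∈ Ms L n}, monomial m.1 (c m) : MvPolynomial (Fin L) R).totalDegree ≤ n := by
  refine totalDegree_finsetSum_le fun m _ => ?_
  refine (totalDegree_monomial_le _ _).trans ?_
  exact mem_Ms.1 m.2

/-- the certificate -/
theorem cert {L r1 r2 : ℕ} {k : Type} [Field k] [IsAlgClosed k] (P : Po L k) (h1 : 1 ≤ r1)
    (h2 : 1 ≤ r2) (hP : P.totalDegree = r1 + r2) (hI : Irreducible P) :
    ∃ S : Finset k, ∀ (K : Type) [Field K] (A : Subring k) (φ : A →+* K), (∀ s ∈ S, s ∈ A) →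
      ∀ P₀ : Po L A, map A.subtype P₀ = P → ∀ a b : Po L K, a.totalDegree ≤ r1 →
        b.totalDegree ≤ r2 → a * b = map φ P₀ → False := by
  classical
  have hone : (1 : MvPolynomial (Sg L r1 r2) k) ∈
      Ideal.span (Set.range fun m => coeff m (df L r1 r2 k P)) := by
    rw [← Ideal.eq_top_iff_one]
    by_contra hne
    obtain ⟨M, hM, hIM⟩ := Ideal.exists_le_maximal _ hne
    obtain ⟨x, hx⟩ := isMaximal_iff_eq_vanishingIdeal_singleton.1 hM
    have hz : map (eval x) (df L r1 r2 k P) = 0 := by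
      ext m
      rw [coeff_map, coeff_zero]
      have hm : coeff m (df L r1 r2 k P) ∈ M := hIM (Ideal.subset_span ⟨m, rfl⟩)
      rw [hx, mem_vanishingIdeal_singleton_iff] at hm
      rw [← coe_aeval_eq_eval]
      exact hm
    rw [ev_df, sub_eq_zero, ev_g1, ev_g2] at hz
    have a1 := td_le (R := k) (fun m : {m // m ∈ Ms L r1} => x (Sum.inl m))
    have a2 := td_le (R := k) (fun m : {m // m ∈ Ms L r2} => x (Sum.inr m))
    have a3 := totalDegree_mul
      (∑ m : {m // m ∈ Ms L r1}, monomial m.1 (x (Sum.inl m)) : MvPolynomial (Fin L) k)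
      (∑ m : {m // m ∈ Ms L r2}, monomial m.1 (x (Sum.inr m)))
    rw [hz, hP] at a3
    rcases hI.isUnit_or_isUnit hz.symm with hu | hu
    · have := (isUnit_iff_totalDegree_of_isReduced.1 hu).2
      omega
    · have := (isUnit_iff_totalDegree_of_isReduced.1 hu).2
      omega
  obtain ⟨c, hc⟩ := Finsupp.mem_ideal_span_range_iff_exists_finsupp.1 hone
  rw [Finsupp.sum] at hc
  refine ⟨c.support.biUnion fun m => (c m).coeffs, fun K _ A φ hA P₀ hP₀ a b ha hb hab => ?_⟩
  have hg : ∀ m, ∃ g : MvPolynomial (Sg L r1 r2) A, map A.subtype g = c m := by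
    intro m
    by_cases hm : m ∈ c.support
    · refine mem_range_map_iff_coeffs_subset.2 fun s hs => ?_
      exact ⟨⟨s, hA s (Finset.mem_biUnion.2 ⟨m, hm, hs⟩)⟩, rfl⟩
    · exact ⟨0, by rw [map_zero, Finsupp.notMem_support_iff.1 hm]⟩
  choose g hg using hg
  have hid : ∑ m ∈ c.support, g m * coeff m (df L r1 r2 A P₀) = 1 := by
    apply map_injective A.subtype Subtype.val_injective
    rw [map_sum, map_one, ← hc]
    refine Finset.sum_congr rfl fun m _ => ?_
    rw [map_mul, hg, ← coeff_map, map_df, hP₀]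
  obtain ⟨x, hx⟩ : ∃ x : Sg L r1 r2 → K, x = Sum.elim (fun m => coeff m.1 a)
    (fun m => coeff m.1 b) := ⟨_, rfl⟩
  have hid2 := congrArg (fun p => eval x (map φ p)) hid
  simp only [map_sum, map_mul, map_one] at hid2
  refine zero_ne_one (α := K) ?_
  rw [← hid2]
  symm
  refine Finset.sum_eq_zero fun m _ => ?_
  rw [← coeff_map (map φ), map_df, ← coeff_map (eval x), ev_df, ev_g1, ev_g2, hx]
  simp only [Sum.elim_inl, Sum.elim_inr]
  rw [sum_eq a ha, sum_eq b hb, hab, sub_self, coeff_zero, mul_zero]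

theorem pf_IRS : T_IRS := by
  classical
  intro L r k _ _ P hr hP hI
  have hS : ∀ r1 : ℕ, ∃ S : Finset k, 1 ≤ r1 → r1 < r → ∀ (K : Type) [Field K] (A : Subring k)
      (φ : A →+* K), (∀ s ∈ S, s ∈ A) →
      ∀ P₀ : Po L A, map A.subtype P₀ = P → ∀ a b : Po L K, a.totalDegree ≤ r1 →
        b.totalDegree ≤ r - r1 → a * b = map φ P₀ → False := by
    intro r1
    by_cases h : 1 ≤ r1 ∧ r1 < r
    · obtain ⟨S, hS⟩ := cert (r1 := r1) (r2 := r - r1) P h.1 (by omega) (by omega) hI
      exact ⟨S, fun _ _ => hS⟩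
    · exact ⟨∅, fun h1 h2 => absurd ⟨h1, h2⟩ h⟩
  choose S hS using hS
  refine ⟨(Finset.range r).biUnion S, fun K _ A φ hA P₀ hP₀ hQ => ?_⟩
  have hQ0 : map φ P₀ ≠ 0 := by
    intro h
    rw [h, totalDegree_zero] at hQ
    omega
  refine ⟨fun hu => ?_, fun a b hab => ?_⟩
  · have := (isUnit_iff_totalDegree_of_isReduced.1 hu).2
    omega
  · have ha : a ≠ 0 := by
      rintro rfl
      exact hQ0 (by rw [hab, zero_mul])
    have hb : b ≠ 0 := by
      rintro rfl
      exact hQ0 (by rw [hab, mul_zero])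
    have hd := totalDegree_mul_of_isDomain ha hb
    rw [← hab, hQ] at hd
    have hun : ∀ c : Po L K, c ≠ 0 → c.totalDegree = 0 → IsUnit c := by
      intro c hc h0
      have h1 := totalDegree_eq_zero_iff_eq_C.1 h0
      rw [h1] at hc ⊢
      have h2 : coeff 0 c ≠ 0 := by
        intro h
        rw [h, C_0] at hc
        exact hc rfl
      exact (isUnit_iff_ne_zero.2 h2).map C
    rcases Nat.eq_zero_or_pos a.totalDegree with h0 | h0
    · exact Or.inl (hun a ha h0)
    rcases Nat.eq_zero_or_pos b.totalDegree with h0' | h0'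
    · exact Or.inr (hun b hb h0')
    exfalso
    refine hS a.totalDegree h0 (by omega) K A φ (fun s hs => hA s ?_) P₀ hP₀ a b le_rfl (by omega)
      hab.symm
    exact Finset.mem_biUnion.2 ⟨_, Finset.mem_range.2 (by omega), hs⟩

end Pool.Agent.H4.HX
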